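import Pool.Agent.Q56.GO.Aff

/-!
# Geometric origin of lisse sheaves in characteristic `p`: affine space over the prime field suffices

Let `p` be a prime, `l ≠ p`, and `n ≥ 2`. Suppose that every irreducible lisse sheaf on the affine
space of dimension `n` over the prime field `F_p`, with determinant of finite order, is of geometric
origin: a Tate twist occurs in the cohomology of a variety over the function field `F_p(t_1,..,t_n)`.
Then the same is true on every smooth irreducible variety of dimension `n` over every finite field of
characteristic `p`. So the question is a question on the representations of the single group
`π_1(A^n)` over `F_p`. Moreover the assertion for infinitely many `n` implies the assertion for all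
`n`.

The proof. By a theorem of Kedlaya `X` has a nonempty open subscheme `U` with a finite etale morphism
`U → A^n`. The direct image of the restriction to `U` of a sheaf `S` on `X` has an irreducible
subsheaf `T` such that `S` is a quotient of the restriction of `T` to `U` (Frobenius reciprocity,
proved here). The sheaf `T` need not have a determinant of finite order, but by the theorems of
Lafforgue and Deligne its Frobenius eigenvalues are plain of weight zero; so a twist of `T` by a
constant plain character has a determinant of finite order, and constant plain characters are of
geometric origin by the theorem of Honda and Tate.
-/

set_option autoImplicit false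

namespace Pool.Agent.Results.MP_80bee4_ag.AffineSpaceSuffices

open Pool.Agent.Q56.GO

/-- **Affine spaces over the prime field suffice.** (1) If Q1 holds for the affine space over the
prime field of the dimension of `X`, then Q1 holds for `X`. (2) If Q1 holds for the affine spaces of
infinitely many dimensions, then Q1 holds for all `X`. -/
theorem result {Λ : Type} [Field Λ] (D : Data Λ) (ho : D.Open) (he : D.Etale) (hp : D.Plain)
    (hk : D.Kedlaya) (hj : D.Projections) :
    (∀ X, D.Question (D.affine (D.dim X)) → D.Question X) ∧
      ((∀ m, ∃ n, m ≤ n ∧ D.Question (D.affine n)) → ∀ X, D.Question X) := by
  refine ⟨reduction ho he hp hk, fun h X => reduction ho he hp hk X ?_⟩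
  obtain ⟨n, hn, h1⟩ := h (D.dim X)
  exact descend' hj hn h1

end Pool.Agent.Results.MP_80bee4_ag.AffineSpaceSuffices
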