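import Pool.Agent.Q159.GF.Fib

/-!
# Geometric origin in characteristic `p`: the geometric generic fibre of a fibration decides

Let `p` be a prime, `l ≠ p`. A *fibration* is a smooth surjective morphism `f : X → B` with
geometrically connected fibres, `X`, `B` smooth irreducible varieties over finite fields of
characteristic `p`; `X_η` is its geometric generic fibre, a variety over an algebraic closure of the
function field of `B`. We consider irreducible lisse sheaves `S` on `X` with determinant of finite
order, and the assertion Q1 for `S`: a Tate twist of `S` occurs in the cohomology of a variety over
the function field of `X`.

1. Suppose that `B` is a curve (Lafforgue's theorem is used), or that Q1 is true in dimension `dim B`.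
  Then Q1 holds for `S` if and only if the restriction of `S` to `X_η` has an irreducible subquotient
  which occurs in the cohomology of a variety over the function field of `X_η`. This is the case if a
  subgroup of finite index of `π_1(X_η)` stabilizes a line in `S`.
2. If a nonempty open subscheme `U` of `X` has such a fibration and `π_1(U_η)` (or its image in
  `π_1(U)`) has a commutative subgroup of finite index then Q1 holds for all sheaves on `X`.
3. Q1 in dimension `n` is equivalent to the assertion for the affine spaces of dimension `n - 1` over
  the algebraic closure of `F_p(t)`: the restriction of every `S` on the affine space of dimension `n`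
  over the prime field has an irreducible subquotient of geometric origin. It is enough to know this
  for infinitely many `n`, to have Q1 for all `X`.
4. Q1 in all dimensions at most `n` is equivalent to assertions on affine lines: for `1 ≤ m < n` the
  restriction of every `S` on the affine space of dimension `m + 1` over the prime field to the affine
  line over the algebraic closure of `F_p(t_1, …, t_m)` has an irreducible subquotient of geometric
  origin.

The proof. After a generically etale base change the subquotient extends to an irreducible sheaf `T`
on `X` which occurs in cohomology, and an irreducible constituent `S_1` of `S` is a quotient of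
`T ⊗ f^* W` for an irreducible sheaf `W` on `B` contained in the direct image of `Hom(T, S_1)`. A twist
of `W` by a constant plain character has a determinant of finite order (Lafforgue, Deligne), so `W`
occurs in cohomology, by Q1 for `B`; so `S_1` and, by Frobenius reciprocity, `S` do so.
-/

set_option autoImplicit false

namespace Pool.Agent.Results.MP_80bee4_ag.GenericFibreCriterion

open Pool.Agent.Q187.FM Pool.Agent.Q56.GO Pool.Agent.Q159.GF

/-- **The geometric generic fibre decides.** `Λ` is an algebraic closure of the field of `l`-adic
numbers, `D` the data of the smooth irreducible varieties over the finite fields of characteristic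
`p` and the lisse sheaves on them; all other hypotheses are known facts. -/
theorem result {Λ : Type} [Field Λ] [IsAlgClosed Λ] (D : FibData Λ) (ho : D.Open) (he : D.Etale)
    (hp : D.Plain) (hk : D.Kedlaya) (hj : D.Projections) (hs : D.Sheaves) (hf : D.Fibrations)
    (hsp : D.Spreading) (hl : D.Lafforgue) :
    D.Criterion ∧ D.AbelianCase ∧ (∀ n, 1 ≤ n → (D.InDim n ↔ D.Meets n 1)) ∧
    ((∀ X, D.Question X) ↔ ∀ N, ∃ n, N ≤ n ∧ D.Meets n 1) ∧
    (∀ n, (∀ m ≤ n, D.InDim m) ↔ ∀ m, 1 ≤ m → m < n → D.Meets (m + 1) m) :=
  final ho he hp hk hj hs hf hsp hl

end Pool.Agent.Results.MP_80bee4_ag.GenericFibreCriterion
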