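import Pool.Agent.Q54.HT.Sq
import Pool.Agent.Q54.CU.Smo

/-!
# Representations of geometric origin and smooth affine cubic hypersurfaces

For a tensor `T` of format `(M + 1) × (M + 1) × (r + 1)` over the field `K` let `E_T` be the
hypersurface `∑ T_{abc} x_a y_b z_c = 1`, `x_0 = y_0 = 1`, in the affine space of dimension
`2 M + r + 1` (`tenO T 1`). It is smooth over `K`. We show that an irreducible representation occurs,
up to a Tate twist, in the homology of an arbitrary variety over `K` if and only if it occurs in that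
of one of the hypersurfaces `E_T`.
-/

namespace Pool.Agent.Results.MP_80bee4_ag.SmoothAffineCubics

universe u v w

open Q54.CU Q54.CC Q54.HT CategoryTheory AlgebraicGeometry

variable {K : Type u} [Field K] {𝓜 : Type w} [Category.{v} 𝓜] [Abelian 𝓜]

/-- The object `S` is of geometric origin: it occurs in the homology of a variety over `K`. -/
def IsGeometric (h : ℤ → ℤ → SchO K → 𝓜) (S : 𝓜) : Prop := ∃ Y : SchO K, IsVar Y ∧ Occurs h S Y

/-- The object `S` occurs in the homology of one of the hypersurfaces `E_T`. -/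
def OccursInCubic (h : ℤ → ℤ → SchO K → 𝓜) (S : 𝓜) : Prop :=
  ∃ (M r : ℕ) (T : Fin (M + 1) → Fin (M + 1) → Fin (r + 1) → K), Occurs h S (tenO T 1)

/-- **Representations of geometric origin and smooth affine cubic hypersurfaces.** -/
theorem result (h : ℤ → ℤ → SchO K → 𝓜) (hh : IsHomology h) :
    (∀ S : 𝓜, Simple S → (IsGeometric h S ↔ OccursInCubic h S)) ∧
    (∀ R : 𝓜 → Prop, (∀ S, R S → Simple S) →
      ((∀ S, R S → IsGeometric h S) ↔ ∀ S, R S → OccursInCubic h S)) ∧
    ∀ (M r : ℕ) (T : Fin (M + 1) → Fin (M + 1) → Fin (r + 1) → K),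
      IsVar (tenO T 1) ∧ IsAffine (tenO T 1).left ∧ Smooth (tenO T 1).hom ∧
        (hypPoly (tq T) 1).totalDegree ≤ 3 := by
  have h1 : ∀ S : 𝓜, Simple S → (IsGeometric h S ↔ OccursInCubic h S) := by
    intro S hS
    constructor
    · rintro ⟨Y, hY, hYS⟩
      exact occurs_cubic hh hS hY hYS
    · rintro ⟨M, r, T, hT⟩
      exact ⟨_, isVar_tenO T 1, hT⟩
  refine ⟨h1, fun R hR => ?_, fun M r T => ?_⟩
  · exact ⟨fun h2 S hS => (h1 S (hR S hS)).1 (h2 S hS), fun h2 S hS => (h1 S (hR S hS)).2 (h2 S hS)⟩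
  · exact ⟨isVar_tenO T 1, isAffine_tenO T 1, smooth_hyp (tq T),
      totalDegree_hypPoly (tq T) 1 (totalDegree_tq T)⟩

end Pool.Agent.Results.MP_80bee4_ag.SmoothAffineCubics
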