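import Pool.Agent.Q60.CF.Mod
import Pool.Agent.Q56.GO.Aff

/-!
# Lisse sheaves on affine space over the prime field and trilinear hypersurfaces

Let `p` be a prime, `l ≠ p`, and `F = 𝔽_p(t_1, …, t_n)`. For a trilinear form `T` with coefficients in
the set `{0, 1, t_1, …, t_n}` consider the hypersurface `T(x, y, z) = 1` over `F`. It is smooth and
affine. We prove:

1. Q1 has a positive answer for all smooth irreducible varieties of dimension `n` over all finite
   fields of characteristic `p` if and only if every irreducible lisse sheaf with determinant of
   finite order on the affine space of dimension `n` over the prime field occurs, up to a Tate twist,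
   in the Borel-Moore homology of one of these hypersurfaces;
2. Q1 has a positive answer for all `X` if and only if this is so for infinitely many `n`.
-/

set_option autoImplicit false

namespace Pool.Agent.Results.MP_80bee4_ag.TrilinearHypersurfaces

open Pool.Agent.Q187.FM Pool.Agent.Q56.GO Pool.Agent.Q60.CF Pool.Agent.Y116.UV
open Q54.CU Q54.HT CategoryTheory AlgebraicGeometry

variable {Λ : Type} [Field Λ]

/-- Homology over the function field `F` of the affine space of dimension `n`: an abelian category `R`
(the continuous representations of the Galois group of `F`), the Borel-Moore homology `h` of the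
varieties over `F`, and the restriction `rst` of representations of the fundamental group of the
affine space to the Galois group. -/
structure Galois (D : Data Λ) (F : Type) [Field F] (n : ℕ) where
  R : Type 1
  [cat : Category.{0} R]
  [abelian : Abelian R]
  h : ℤ → ℤ → Sch F → R
  rst : Rp Λ (D.Pi (D.affine n)) → R

attribute [instance] Galois.cat Galois.abelian

variable {D : Data Λ} {F : Type} [Field F] {n : ℕ}

/-- The known facts: `h` has the formal properties of Borel-Moore homology; the restriction of an
irreducible lisse sheaf to the Galois group is irreducible; it occurs, up to a Tate twist, in the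
cohomology of a variety over `F` if and only if it occurs in the homology of a variety over `F`
(alterations, Poincare duality; `h` comprises all Tate twists). -/
structure Galois.Facts (G : Galois D F n) : Prop where
  homology : IsBorelMoore G.h
  simple : ∀ S, D.lisse _ S → S.Irreducible → Simple (G.rst S)
  occurs : ∀ S, D.lisse _ S → S.Irreducible →
    (D.occurs (D.affine n) S ↔ ∃ Y : Sch F, IsVar Y ∧ Occurs G.h (G.rst S) Y)

/-- Every irreducible lisse sheaf with determinant of finite order on the affine space of dimension
`n` occurs in the homology of a smooth hypersurface `T(x, y, z) = 1`, `T` a trilinear form with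
coefficients `0`, `1`, `t_1, …, t_n`. -/
def Galois.AllTrilinear (G : Galois D F n) (t : Fin n → F) : Prop :=
  ∀ S : Rp Λ (D.Pi (D.affine n)), D.lisse _ S → S.Irreducible → FiniteDet S →
    ∃ (a b c : ℕ) (T : Fin a → Fin b → Fin c → F), EntriesIn t T ∧ Smooth (hypS T).hom ∧
      Occurs G.h (G.rst S) (hypS T)

theorem question_iff {G : Galois D F n} (hG : G.Facts) {t : Fin n → F} (ht : Generates t) :
    D.Question (D.affine n) ↔ G.AllTrilinear t := by
  constructor
  · intro h S h1 h2 h3
    exact (occurs_iff_self hG.homology ht (hG.simple S h1 h2)).1 ((hG.occurs S h1 h2).1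
      (h S h1 h2 h3))
  · intro h S h1 h2 h3
    exact (hG.occurs S h1 h2).2 ((occurs_iff_self hG.homology ht (hG.simple S h1 h2)).2
      (h S h1 h2 h3))

/-- **Lisse sheaves in characteristic `p` and trilinear hypersurfaces.** -/
theorem result (p : ℕ) [Fact p.Prime] (D : Data Λ) (ho : D.Open) (he : D.Etale) (hp : D.Plain)
    (hk : D.Kedlaya) (hj : D.Projections) (hd : ∀ n, D.dim (D.affine n) = n)
    (G : ∀ n, Galois D (RatFun n (ZMod p)) n) (hG : ∀ n, (G n).Facts) :
    (∀ n, (∀ X, D.dim X = n → D.Question X) ↔ (G n).AllTrilinear (tvar n (ZMod p))) ∧
      ((∀ X, D.Question X) ↔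
        ∀ m, ∃ n, m ≤ n ∧ (G n).AllTrilinear (tvar n (ZMod p))) := by
  have key : ∀ n, D.Question (D.affine n) ↔ (G n).AllTrilinear (tvar n (ZMod p)) := fun n =>
    question_iff (hG n) (generates_zmod n p)
  refine ⟨fun n => ⟨fun h => (key n).1 (h _ (hd n)), ?_⟩, fun h m => ⟨m, le_rfl, (key m).1 (h _)⟩,
    fun h X => ?_⟩
  · rintro h X rfl
    exact reduction ho he hp hk X ((key _).2 h)
  · obtain ⟨n, hn, h1⟩ := h (D.dim X)
    exact reduction ho he hp hk X (descend' hj hn ((key n).2 h1))

end Pool.Agent.Results.MP_80bee4_ag.TrilinearHypersurfaces
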